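import Mathlib

namespace Pool.Agent.Results.MP_fcd74d_nt.InfinitelyManyGood

open Finset Filter Real

/-- Chebyshev: eventually at most one integer in fifty is prime. -/
theorem pi_small : ∃ x0 : ℕ, ∀ n : ℕ, x0 ≤ n → (50 : ℝ) * (Nat.primeCounting n : ℝ) ≤ n := by
  have h1 := Chebyshev.eventually_primeCounting_le (ε := 1) one_pos
  have h2 : ∀ᶠ x : ℝ in atTop, 50 * (Real.log 4 + 1) ≤ Real.log x :=
    Real.tendsto_log_atTop.eventually_ge_atTop _
  obtain ⟨x1, hx1⟩ := ((h1.and h2).and (eventually_gt_atTop (0 : ℝ))).exists_forall_of_atTop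
  refine ⟨⌈x1⌉₊, fun n hn => ?_⟩
  obtain ⟨⟨ha, hb⟩, hc⟩ := hx1 (n : ℝ) (Nat.le_of_ceil_le hn)
  rw [Nat.floor_natCast] at ha
  have hl4 : 0 < Real.log 4 := Real.log_pos (by norm_num)
  have hlog : 0 < Real.log n := by linarith
  have h3 : (Real.log 4 + 1) * (n : ℝ) / Real.log n ≤ n / 50 := by
    rw [div_le_div_iff₀ hlog (by norm_num)]
    nlinarith
  linarith

/-- The tail of the sum of `1/p^2`, dyadically. -/
theorem tail_sum (x0 : ℕ) (hx0 : ∀ n : ℕ, x0 ≤ n → (50 : ℝ) * (Nat.primeCounting n : ℝ) ≤ n)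
    (s : ℕ) (hs : x0 ≤ 2 ^ s) (T : ℕ) (hT : s ≤ T) :
    ∑ p ∈ (Finset.Ioc (2 ^ s) (2 ^ T)).filter Nat.Prime, (1 : ℝ) / (p : ℝ) ^ 2
      ≤ (1 / 50) * (4 / 2 ^ s - 4 / 2 ^ T) := by
  induction T, hT using Nat.le_induction with
  | base => simp
  | succ T hT ih =>
    have hsplit : (Finset.Ioc (2 ^ s) (2 ^ (T + 1))).filter Nat.Prime
        ⊆ (Finset.Ioc (2 ^ s) (2 ^ T)).filter Nat.Prime
          ∪ (Finset.Ioc (2 ^ T) (2 ^ (T + 1))).filter Nat.Prime := by
      intro p hp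
      simp only [Finset.mem_filter, Finset.mem_Ioc, Finset.mem_union] at hp ⊢
      by_cases h : p ≤ 2 ^ T
      · exact Or.inl ⟨⟨hp.1.1, h⟩, hp.2⟩
      · exact Or.inr ⟨⟨not_le.mp h, hp.1.2⟩, hp.2⟩
    have hnn : ∀ p ∈ (Finset.Ioc (2 ^ s) (2 ^ T)).filter Nat.Prime
          ∪ (Finset.Ioc (2 ^ T) (2 ^ (T + 1))).filter Nat.Prime, (0 : ℝ) ≤ 1 / (p : ℝ) ^ 2 :=
      fun p _ => by positivity
    have h1 : ∑ p ∈ (Finset.Ioc (2 ^ s) (2 ^ (T + 1))).filter Nat.Prime, (1 : ℝ) / (p : ℝ) ^ 2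
        ≤ ∑ p ∈ (Finset.Ioc (2 ^ s) (2 ^ T)).filter Nat.Prime, (1 : ℝ) / (p : ℝ) ^ 2
          + ∑ p ∈ (Finset.Ioc (2 ^ T) (2 ^ (T + 1))).filter Nat.Prime, (1 : ℝ) / (p : ℝ) ^ 2 := by
      refine (Finset.sum_le_sum_of_subset_of_nonneg hsplit (fun p hp _ => hnn p hp)).trans ?_
      have := Finset.sum_union_inter (s₁ := (Finset.Ioc (2 ^ s) (2 ^ T)).filter Nat.Prime)
        (s₂ := (Finset.Ioc (2 ^ T) (2 ^ (T + 1))).filter Nat.Prime)
        (f := fun p : ℕ => (1 : ℝ) / (p : ℝ) ^ 2)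
      have h0 : 0 ≤ ∑ p ∈ (Finset.Ioc (2 ^ s) (2 ^ T)).filter Nat.Prime
          ∩ (Finset.Ioc (2 ^ T) (2 ^ (T + 1))).filter Nat.Prime, (1 : ℝ) / (p : ℝ) ^ 2 :=
        Finset.sum_nonneg (fun p _ => by positivity)
      linarith
    have h2 : ∑ p ∈ (Finset.Ioc (2 ^ T) (2 ^ (T + 1))).filter Nat.Prime, (1 : ℝ) / (p : ℝ) ^ 2
        ≤ (Nat.primeCounting (2 ^ (T + 1)) : ℝ) * (1 / ((2 : ℝ) ^ T) ^ 2) := by
      have h3 : ∀ p ∈ (Finset.Ioc (2 ^ T) (2 ^ (T + 1))).filter Nat.Prime,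
          (1 : ℝ) / (p : ℝ) ^ 2 ≤ 1 / ((2 : ℝ) ^ T) ^ 2 := by
        intro p hp
        have hp1 : (2 : ℝ) ^ T ≤ (p : ℝ) := by
          have := (Finset.mem_Ioc.mp (Finset.mem_filter.mp hp).1).1.le
          exact_mod_cast this
        apply one_div_le_one_div_of_le (by positivity)
        gcongr
      refine (Finset.sum_le_card_nsmul _ _ _ h3).trans ?_
      rw [nsmul_eq_mul]
      apply mul_le_mul_of_nonneg_right _ (by positivity)
      have hc : ((Finset.Ioc (2 ^ T) (2 ^ (T + 1))).filter Nat.Prime).card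
          ≤ Nat.primeCounting (2 ^ (T + 1)) := by
        rw [Nat.primeCounting, Nat.primeCounting', Nat.count_eq_card_filter_range]
        apply Finset.card_le_card
        intro p hp
        simp only [Finset.mem_filter, Finset.mem_Ioc, Finset.mem_range] at hp ⊢
        exact ⟨by omega, hp.2⟩
      exact_mod_cast hc
    have h4 : (50 : ℝ) * (Nat.primeCounting (2 ^ (T + 1)) : ℝ) ≤ 2 * 2 ^ T := by
      have h5 := hx0 (2 ^ (T + 1)) (hs.trans (Nat.pow_le_pow_right (by norm_num) (by omega)))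
      have h6 : ((2 ^ (T + 1) : ℕ) : ℝ) = 2 * 2 ^ T := by push_cast; ring
      rw [h6] at h5
      exact h5
    have h7 : (Nat.primeCounting (2 ^ (T + 1)) : ℝ) * (1 / ((2 : ℝ) ^ T) ^ 2)
        ≤ (1 / 50) * (2 / 2 ^ T) := by
      have hpos : (0 : ℝ) < 2 ^ T := by positivity
      rw [mul_one_div, div_le_iff₀ (by positivity)]
      have : (1 / 50 : ℝ) * (2 / 2 ^ T) * (2 ^ T) ^ 2 = (2 * 2 ^ T) / 50 := by
        field_simp
      rw [this]
      linarith
    have h8 : (4 : ℝ) / 2 ^ (T + 1) = 2 / 2 ^ T := by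
      rw [pow_succ]
      field_simp
      norm_num
    have h9 : (4 : ℝ) / 2 ^ T = 2 / 2 ^ T + 2 / 2 ^ T := by ring
    rw [h8]
    linarith

/-- A residue class condition modulo `q` holds for at most `N/q + 1` of the `t < N`. -/
theorem count_class (M q N c : ℕ) (hq : Nat.Coprime q (2 * M)) :
    ((Finset.range N).filter (fun t : ℕ => (q : ℤ) ∣ (M : ℤ) * (2 * (t : ℤ) + 1) - (c : ℤ))).card
      ≤ N / q + 1 := by
  have hmaps : Set.MapsTo (fun t : ℕ => t / q)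
      ((Finset.range N).filter (fun t : ℕ => (q : ℤ) ∣ (M : ℤ) * (2 * (t : ℤ) + 1) - (c : ℤ)))
      (Finset.range (N / q + 1)) := by
    intro t ht
    simp only [Finset.coe_filter, Finset.mem_range, Set.mem_ofPred_eq, Finset.coe_range,
      Set.mem_Iio] at ht ⊢
    exact Nat.lt_succ_of_le (Nat.div_le_div_right ht.1.le)
  have hinj : Set.InjOn (fun t : ℕ => t / q)
      ((Finset.range N).filter (fun t : ℕ => (q : ℤ) ∣ (M : ℤ) * (2 * (t : ℤ) + 1) - (c : ℤ))) := by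
    intro t ht u hu htu
    simp only [Finset.coe_filter, Finset.mem_range, Set.mem_ofPred_eq] at ht hu htu
    have h1 : (q : ℤ) ∣ ((2 * M : ℕ) : ℤ) * ((t : ℤ) - (u : ℤ)) := by
      have := dvd_sub ht.2 hu.2
      have h2 : (M : ℤ) * (2 * (t : ℤ) + 1) - (c : ℤ) - ((M : ℤ) * (2 * (u : ℤ) + 1) - (c : ℤ))
          = ((2 * M : ℕ) : ℤ) * ((t : ℤ) - (u : ℤ)) := by push_cast; ring
      rwa [h2] at this
    have h3 : (q : ℤ) ∣ (t : ℤ) - (u : ℤ) :=
      IsCoprime.dvd_of_dvd_mul_left (Nat.isCoprime_iff_coprime.mpr hq) h1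
    have h4 : u ≡ t [MOD q] := (Nat.modEq_iff_dvd).mpr h3
    have h5 : u % q = t % q := h4
    rw [← Nat.div_add_mod t q, ← Nat.div_add_mod u q, htu, h5]
  have := Finset.card_le_card_of_injOn _ hmaps hinj
  simpa using this

theorem exists_good (B : ℕ) : ∃ n : ℕ, B < n ∧ 3 ≤ n ∧
    ∀ k : ℕ, 1 ≤ k → 2 ^ k < n → Squarefree (n - 2 ^ k) := by
  obtain ⟨x0, hx0⟩ := pi_small
  -- the parameters
  set s : ℕ := x0 + B + 7 with hs
  set y : ℕ := 2 ^ s with hy
  have hsy : s < y := Nat.lt_two_pow_self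
  have hy7 : 128 ≤ y := by
    have : 2 ^ 7 ≤ 2 ^ s := Nat.pow_le_pow_right (by norm_num) (by omega)
    simpa using this
  obtain ⟨M, hM⟩ : 2 ∣ primorial y :=
    (Nat.Prime.dvd_primorial_iff Nat.prime_two).mpr (by omega)
  have hcop : Nat.Coprime 2 M := by
    have h := squarefree_primorial y
    rw [hM] at h
    exact Nat.coprime_of_squarefree_mul h
  have hMle : 2 * M ≤ 4 ^ y := hM ▸ primorial_le_four_pow y
  have hMge : y ≤ 2 * M := hM ▸ le_primorial_self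
  have hy2 : 2 * 2 ^ (s - 1) = y := by
    rw [hy, ← pow_succ', Nat.sub_add_cancel (by omega)]
  have hs1 : s - 1 < 2 ^ (s - 1) := Nat.lt_two_pow_self
  have hMpos : 0 < M := by omega
  -- the candidates
  set N : ℕ := 2 ^ (4 * y) with hN
  set P : Finset ℕ := (Finset.Ioc (2 ^ s) (2 ^ (3 * y))).filter Nat.Prime with hP
  let bad : ℕ × ℕ → Finset ℕ := fun kp => (Finset.range N).filter
    (fun t : ℕ => ((kp.2 ^ 2 : ℕ) : ℤ) ∣ (M : ℤ) * (2 * (t : ℤ) + 1) - ((2 ^ kp.1 : ℕ) : ℤ))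
  have hPodd : ∀ p ∈ P, Nat.Coprime (p ^ 2) (2 * M) := by
    intro p hp
    have hp' := Finset.mem_filter.mp hp
    apply Nat.Coprime.pow_left
    rw [(Nat.Prime.coprime_iff_not_dvd hp'.2), ← hM, hp'.2.dvd_primorial_iff]
    have := (Finset.mem_Ioc.mp hp'.1).1
    omega
  have hcard : ∀ kp ∈ Finset.range (6 * y) ×ˢ P, ((bad kp).card : ℝ)
      ≤ (N : ℝ) * (1 / (kp.2 : ℝ) ^ 2) + 1 := by
    intro kp hkp
    have hp := (Finset.mem_product.mp hkp).2
    have h1 := count_class M (kp.2 ^ 2) N (2 ^ kp.1) (hPodd _ hp)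
    have h2 : ((bad kp).card : ℝ) ≤ ((N / kp.2 ^ 2 + 1 : ℕ) : ℝ) := Nat.cast_le.mpr h1
    refine h2.trans ?_
    push_cast
    have h3 : ((N / kp.2 ^ 2 : ℕ) : ℝ) ≤ (N : ℝ) / ((kp.2 ^ 2 : ℕ) : ℝ) := Nat.cast_div_le
    push_cast at h3
    rw [mul_one_div]
    linarith
  have hPcard : (P.card : ℝ) ≤ 2 ^ (3 * y) := by
    have : P.card ≤ 2 ^ (3 * y) := by
      refine (Finset.card_filter_le _ _).trans ?_
      rw [Nat.card_Ioc]
      exact Nat.sub_le _ _
    exact_mod_cast this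
  have hbadcard : (((Finset.range (6 * y) ×ˢ P).biUnion bad).card : ℝ) < N := by
    have h1 : (((Finset.range (6 * y) ×ˢ P).biUnion bad).card : ℝ)
        ≤ ∑ kp ∈ Finset.range (6 * y) ×ˢ P, ((bad kp).card : ℝ) := by
      exact_mod_cast Finset.card_biUnion_le
    have h2 := Finset.sum_le_sum hcard
    have h3 : ∑ kp ∈ Finset.range (6 * y) ×ˢ P, ((N : ℝ) * (1 / (kp.2 : ℝ) ^ 2) + 1)
        = (6 * y : ℝ) * ((N : ℝ) * (∑ p ∈ P, 1 / (p : ℝ) ^ 2) + P.card) := by
      have inner : ∑ p ∈ P, ((N : ℝ) * (1 / (p : ℝ) ^ 2) + 1)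
          = (N : ℝ) * (∑ p ∈ P, 1 / (p : ℝ) ^ 2) + P.card := by
        rw [Finset.sum_add_distrib, ← Finset.mul_sum]
        simp
      rw [Finset.sum_product]
      simp only [inner, Finset.sum_const, Finset.card_range, nsmul_eq_mul]
      push_cast
      ring
    have h4 : ∑ p ∈ P, (1 : ℝ) / (p : ℝ) ^ 2 ≤ (4 / 50) * (1 / y) := by
      have h5 := tail_sum x0 hx0 s (by omega) (3 * y) (by omega)
      have h6 : (0 : ℝ) ≤ 4 / 2 ^ (3 * y) := by positivity
      have h7 : ((y : ℕ) : ℝ) = 2 ^ s := by rw [hy]; push_cast; rfl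
      rw [h7]
      refine h5.trans ?_
      have h8 : (4 : ℝ) / 2 ^ s = 4 * (1 / 2 ^ s) := by ring
      rw [h8]
      linarith
    have hypos : (0 : ℝ) < y := by
      have : 0 < y := by omega
      exact_mod_cast this
    have hNpos : (0 : ℝ) < N := by positivity
    have h9 : (6 * y : ℝ) * ((N : ℝ) * (∑ p ∈ P, 1 / (p : ℝ) ^ 2) + P.card)
        ≤ (6 * y : ℝ) * ((N : ℝ) * ((4 / 50) * (1 / y)) + 2 ^ (3 * y)) := by
      gcongr
    have h10 : (6 * y : ℝ) * ((N : ℝ) * ((4 / 50) * (1 / y)) + 2 ^ (3 * y))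
        = (24 / 50) * N + 6 * y * 2 ^ (3 * y) := by
      field_simp
      ring
    have h11 : (6 * y : ℝ) * 2 ^ (3 * y) < (26 / 50) * N := by
      have h12 : 100 * y < 8 * 2 ^ y := by
        have h13 : ∀ z : ℕ, 128 ≤ z → 100 * z < 8 * 2 ^ z := by
          intro z hz
          induction z, hz using Nat.le_induction with
          | base => norm_num
          | succ z hz ih => rw [pow_succ]; omega
        exact h13 y hy7
      have h14 : (N : ℝ) = 2 ^ y * 2 ^ (3 * y) := by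
        rw [hN]
        push_cast
        rw [← pow_add]
        congr 1
        ring
      rw [h14]
      have h15 : (100 * y : ℝ) < 8 * 2 ^ y := by exact_mod_cast h12
      have h16 : (0 : ℝ) < 2 ^ (3 * y) := by positivity
      have h17 : (6 * y : ℝ) < (26 / 50) * 2 ^ y := by linarith
      calc (6 * y : ℝ) * 2 ^ (3 * y) < ((26 / 50) * 2 ^ y) * 2 ^ (3 * y) :=
            mul_lt_mul_of_pos_right h17 h16
        _ = (26 / 50) * (2 ^ y * 2 ^ (3 * y)) := by ring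
    linarith
  -- a candidate that is not bad
  obtain ⟨t, ht, htbad⟩ : ∃ t ∈ Finset.range N, t ∉ (Finset.range (6 * y) ×ˢ P).biUnion bad := by
    apply Finset.exists_mem_notMem_of_card_lt_card
    rw [Finset.card_range]
    exact_mod_cast hbadcard
  have htN : t < N := Finset.mem_range.mp ht
  have hnlt : M * (2 * t + 1) < 2 ^ (6 * y) := by
    have h1 : 2 * t + 1 < 2 * N := by omega
    calc M * (2 * t + 1) < M * (2 * N) := Nat.mul_lt_mul_of_pos_left h1 hMpos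
      _ = (2 * M) * N := by ring
      _ ≤ 4 ^ y * N := Nat.mul_le_mul_right _ hMle
      _ = 2 ^ (6 * y) := by
        rw [hN, show (4 : ℕ) = 2 ^ 2 from rfl, ← pow_mul, ← pow_add]
        congr 1
        ring
  have hMn : M ≤ M * (2 * t + 1) := Nat.le_mul_of_pos_right _ (by omega)
  refine ⟨M * (2 * t + 1), by omega, by omega, ?_⟩
  intro k hk hkn
  rw [Nat.squarefree_iff_prime_squarefree]
  intro p hp hdvd
  have hklt : k < 6 * y := (Nat.pow_lt_pow_iff_right (by norm_num)).mp (hkn.trans hnlt)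
  by_cases hp2 : p = 2
  · -- the difference is odd
    subst hp2
    have h1 : 2 ∣ M * (2 * t + 1) - 2 ^ k := (Dvd.intro _ rfl).trans hdvd
    have h2 : 2 ∣ 2 ^ k := dvd_pow_self 2 (by omega)
    have h3 : 2 ∣ M * (2 * t + 1) := by
      have := Nat.dvd_add h1 h2
      rwa [Nat.sub_add_cancel hkn.le] at this
    rcases (Nat.Prime.dvd_mul Nat.prime_two).mp h3 with h4 | h4
    · exact (Nat.Prime.coprime_iff_not_dvd Nat.prime_two).mp hcop h4
    · omega
  · by_cases hpy : p ≤ y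
    · have h1 : p ∣ 2 * M := hM ▸ (hp.dvd_primorial_iff).mpr hpy
      have h2 : p ∣ M := by
        rcases (Nat.Prime.dvd_mul hp).mp h1 with h | h
        · exact absurd ((Nat.prime_dvd_prime_iff_eq hp Nat.prime_two).mp h) hp2
        · exact h
      have h3 : p ∣ M * (2 * t + 1) := h2.mul_right _
      have h4 : p ∣ M * (2 * t + 1) - 2 ^ k := (Dvd.intro _ rfl).trans hdvd
      have h5 : p ∣ 2 ^ k := by
        have := (Nat.dvd_sub_iff_right hkn.le h3).mp h4
        exact this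
      exact hp2 ((Nat.prime_dvd_prime_iff_eq hp Nat.prime_two).mp (hp.dvd_of_dvd_pow h5))
    · apply htbad
      have hppos : 0 < M * (2 * t + 1) - 2 ^ k := Nat.sub_pos_of_lt hkn
      have h1 : p * p ≤ M * (2 * t + 1) - 2 ^ k := Nat.le_of_dvd hppos hdvd
      have h2 : p * p < 2 ^ (3 * y) * 2 ^ (3 * y) := by
        rw [← pow_add, show 3 * y + 3 * y = 6 * y by ring]
        exact (h1.trans (Nat.sub_le _ _)).trans_lt hnlt
      have h3 : p < 2 ^ (3 * y) := by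
        by_contra h
        have h' := not_lt.mp h
        exact absurd (Nat.mul_le_mul h' h') (not_le.mpr h2)
      rw [Finset.mem_biUnion]
      refine ⟨(k, p), ?_, ?_⟩
      · rw [Finset.mem_product]
        refine ⟨Finset.mem_range.mpr hklt, ?_⟩
        rw [hP, Finset.mem_filter, Finset.mem_Ioc]
        exact ⟨⟨not_le.mp hpy, h3.le⟩, hp⟩
      · simp only [bad]
        rw [Finset.mem_filter]
        refine ⟨ht, ?_⟩
        have h4 : ((p ^ 2 : ℕ) : ℤ) ∣ ((M * (2 * t + 1) - 2 ^ k : ℕ) : ℤ) := by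
          rw [pow_two]
          exact_mod_cast hdvd
        rw [Nat.cast_sub hkn.le] at h4
        push_cast at h4 ⊢
        exact h4

/-- Erdős: there are infinitely many `n` such that `n - 2^k` is squarefree for every `k ≥ 1`
with `2^k < n`. -/
theorem result : Set.Infinite {n : ℕ | 3 ≤ n ∧
    ∀ k : ℕ, 1 ≤ k → 2 ^ k < n → Squarefree (n - 2 ^ k)} := by
  rw [Set.infinite_iff_exists_gt]
  intro B
  obtain ⟨n, hB, hn⟩ := exists_good B
  exact ⟨n, hn, hB⟩

end Pool.Agent.Results.MP_fcd74d_nt.InfinitelyManyGood
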